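import Mathlib
import Pool.Agent.TH335.RF.R1
set_option autoImplicit false

/-! The reduction step for a class of functions. -/

namespace Pool.Agent.Run7.h918.SR

open MeasureTheory Set Complex
open scoped ENNReal RealInnerProductSpace
open Pool.Agent.TH335.RF
open Pool.Agent.H789R2.FR (E sg T sg_finite)
open Pool.Agent.H438R2.BR (Phi J J_mp Q)
open Pool.Agent.H438R2.BR.T10 (e0 e0_norm)
open Pool.Agent.H438R2.PD (P1 P2 P1_meas P2_meas T_meas' T_le ten hh)

variable {m : ℕ}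

/-- hypothesis on the main term, for a class of functions -/
def HypC (k m : ℕ) (P : ℝ) (𝒞 : (E m → ℂ) → Prop) : Prop := ∀ δ : ℝ, 0 < δ → ∃ C : ℝ, 0 < C ∧
  ∀ (F : E m → ℂ), Measurable F → (∀ y, ‖F y‖ ≤ 1) → 𝒞 F → ∀ s : ℝ, (s = 1 ∨ s = -1) →
  ∫⁻ r in Ioi (1 : ℝ), ENNReal.ofReal (r ^ (-δ)) * ∫⁻ y : E m, ‖Gf k F (s * r) y‖ₑ ^ P ≤
    ENNReal.ofReal C

theorem main_termC (𝒞 : (E m → ℂ) → Prop) (k : ℕ) (hk : 2 ≤ k) (hm : 1 ≤ m) (P q : ℝ) (hq : 2 < q) (hqP : q < P)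
    (hyp : HypC k m P 𝒞) (h : 1 < (q - 2) * (((k : ℝ) - 1) / 2 + 1 / (P - 2))) :
    ∃ C : ℝ, 0 < C ∧ ∀ (F : E m → ℂ), Measurable F → (∀ y, ‖F y‖ ≤ 1) → 𝒞 F →
    ∀ s : ℝ, (s = 1 ∨ s = -1) →
    ∫⁻ r in Ioi (1 : ℝ), ENNReal.ofReal (r ^ (-(((k : ℝ) - 1) * (q / 2 - 1)))) *
      ∫⁻ y : E m, ‖Gf k F (s * r) y‖ₑ ^ q ≤ ENNReal.ofReal C := by
  have hP2 : 0 < P - 2 := by linarith
  set t : ℝ := (q - 2) / (P - 2) with ht
  have ht0 : 0 < t := div_pos (by linarith) hP2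
  have ht1 : t < 1 := by rw [ht, div_lt_one hP2]; linarith
  set β : ℝ := ((k : ℝ) - 1) * (q / 2 - 1) with hβ
  have hε : 0 < β - (1 - t) := by
    have : (q - 2) * (((k : ℝ) - 1) / 2 + 1 / (P - 2)) = β + t := by
      rw [hβ, ht]; ring
    rw [this] at h
    linarith
  set δ : ℝ := (β - (1 - t)) / (2 * t) with hδ
  have hδ0 : 0 < δ := by positivity
  have h1t : 0 < 1 - t := by linarith
  set a : ℝ := (β - (β - (1 - t)) / 2) / (1 - t) with ha
  have ha1 : 1 < a := by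
    rw [ha, lt_div_iff₀ h1t]
    linarith
  obtain ⟨C1, hC1, h1⟩ := hyp δ hδ0
  obtain ⟨C2, hC2, h2⟩ := Gf_L2 (m := m) k hk hm
  refine ⟨(C2 * (1 / (a - 1))) ^ (1 - t) * C1 ^ t, ?_, ?_⟩
  · have : 0 < a - 1 := by linarith
    positivity
  intro F hFm hF hCF s hs
  have hGm : Measurable (Function.uncurry fun (r : ℝ) (y : E m) => ‖Gf k F (s * r) y‖ₑ) := by
    have hg := Gf_meas k F hFm
    have hp : Measurable fun p : ℝ × E m => ((s * p.1, p.2) : ℝ × E m) :=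
      (measurable_fst.const_mul s).prodMk measurable_snd
    have h3 := Measurable.comp hg hp
    exact h3.enorm
  have hint := interp (volume : Measure (E m)) (fun (r : ℝ) (y : E m) => ‖Gf k F (s * r) y‖ₑ)
    hGm a δ P q t β ht0 ht1 (by rw [ht]; field_simp; ring) (by
      rw [ha, hδ]
      field_simp
      ring) (by linarith)
  refine hint.trans ?_
  rw [ENNReal.ofReal_mul (by
    have : 0 < a - 1 := by linarith
    positivity), ← ENNReal.ofReal_rpow_of_nonneg (by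
    have : 0 < a - 1 := by linarith
    positivity) h1t.le, ← ENNReal.ofReal_rpow_of_nonneg hC1.le ht0.le]
  gcongr
  · calc ∫⁻ r in Ioi (1 : ℝ), ENNReal.ofReal (r ^ (-a)) * ∫⁻ y : E m, ‖Gf k F (s * r) y‖ₑ ^ (2 : ℝ)
        ≤ ∫⁻ r in Ioi (1 : ℝ), ENNReal.ofReal (r ^ (-a)) * ENNReal.ofReal C2 := by
          apply lintegral_mono
          intro r
          simp only
          gcongr
          exact h2 F hFm hF (s * r)
      _ = _ := by
          rw [lintegral_mul_const' _ _ ENNReal.ofReal_ne_top, pow_int a ha1, mul_comm,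
            ← ENNReal.ofReal_mul hC2.le]
  · exact h1 F hFm hF hCF s hs

/-- the main estimate -/
theorem mainC (𝒞 : (E m → ℂ) → Prop) (k : ℕ) (hk : 2 ≤ k) (hm : 1 ≤ m) (P q : ℝ) (hq : 2 < q) (hqP : q < P)
    (hyp : HypC k m P 𝒞) (h : 1 < (q - 2) * (((k : ℝ) - 1) / 2 + 1 / (P - 2))) :
    ∃ C : ℝ, 0 < C ∧ ∀ (F : E m → ℂ), Measurable F → (∀ y, ‖F y‖ ≤ 1) → 𝒞 F →
    ∫⁻ z, ‖T (fun z : E (k + m) => F (P2 k m z)) z‖ₑ ^ q ≤ ENNReal.ofReal C := by
  have hk' : (2 : ℝ) ≤ k := by exact_mod_cast hk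
  have hq0 : 0 < q := by linarith
  obtain ⟨c, CE, hCE, hE⟩ := EA_L2 (m := m) k hk hm
  obtain ⟨CD, hCD, hD⟩ := decomp_le (m := m) k hk hm c
  obtain ⟨CM, hCM, hM⟩ := main_termC (m := m) 𝒞 k hk hm P q hq hqP hyp h
  obtain ⟨CP, hCP, hP⟩ := FB_Lp m q hq.le
  set σ : ℝ := (sg (k - 1)).real univ with hσ
  have hσ0 : 0 < σ := Pool.Agent.H438R2.BR.T7.sg_pos (by omega)
  set vB : ℝ := volume.real (Metric.ball (0 : E m) 1) with hvB
  have hvB0 : 0 ≤ vB := measureReal_nonneg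
  have hvol : volume (Metric.ball (0 : E m) 1) = ENNReal.ofReal vB := by
    rw [hvB, ofReal_measureReal ball_fin]
  set β : ℝ := ((k : ℝ) - 1) * (q / 2 - 1) with hβ
  set s0 : ℝ := (k : ℝ) * (q / 2) - ((k : ℝ) - 1) with hs0
  have hs01 : 1 < s0 := by
    rw [hs0]
    nlinarith
  -- the constants
  set K1 : ℝ := (CP * ((σ * Real.pi) ^ 2 * vB)) ^ (q / 2) with hK1
  have hK10 : 0 ≤ K1 := by positivity
  set K2 : ℝ := 3 ^ q * (CD ^ q * (CM + CM) + (CP * CE) ^ (q / 2) * (1 / (s0 - 1))) with hK2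
  have hK20 : 0 < K2 := by
    have : 0 < s0 - 1 := by linarith
    positivity
  set SK : ℝ := (sg k).real univ with hSK
  have hSK0 : 0 < SK := Pool.Agent.H438R2.BR.T7.sg_pos (by omega)
  refine ⟨SK * (K1 + K2), by positivity, fun F hFm hF hCF => ?_⟩
  have hgm : Measurable fun z : E (k + m) => F (P2 k m z) := hFm.comp (P2_meas k m)
  have hTm : Measurable fun z : E (k + m) => ‖T (fun z : E (k + m) => F (P2 k m z)) z‖ₑ ^ q :=
    (T_meas' _ hgm).enorm.pow_const q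
  have hJm : Measurable fun p : E k × E m => J p.1 p.2 := (J_mp k m).measurable
  -- measurability of the profile
  have hPhi : Measurable fun p : ℝ × E m => AA k F p.1 p.2 := by
    unfold AA
    have h1 : Measurable fun p : ℝ × E m => wt p.2 := (wt_meas (m := m)).comp measurable_snd
    have h2 : Measurable fun p : ℝ × E m => Phi k (p.1 * wt p.2) :=
      (Phi_meas k).comp (measurable_fst.mul h1)
    have h3 : Measurable fun p : ℝ × E m => F p.2 := hFm.comp measurable_snd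
    fun_prop
  have hFBm : Measurable fun p : ℝ × E m => FB (AA k F p.1) p.2 := by
    unfold FB
    have hpair : Measurable fun p : (ℝ × E m) × E m => ((p.1.1, p.2) : ℝ × E m) :=
      (measurable_fst.comp measurable_fst).prodMk measurable_snd
    have h3 : Measurable fun p : (ℝ × E m) × E m => AA k F p.1.1 p.2 := by
      have h5 := Measurable.comp hPhi hpair
      exact h5
    have h4 : Measurable fun p : (ℝ × E m) × E m =>
        Complex.exp (-((⟪p.2, p.1.2⟫ : ℝ) : ℂ) * I) := by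
      have h6 : Measurable fun p : (ℝ × E m) × E m => (⟪p.2, p.1.2⟫ : ℝ) :=
        measurable_snd.inner (measurable_snd.comp measurable_fst)
      exact Complex.measurable_exp.comp ((Complex.measurable_ofReal.comp h6).neg.mul_const I)
    exact ((h3.mul h4).stronglyMeasurable.integral_prod_right'
      (ν := volume.restrict (Metric.ball (0 : E m) 1))).measurable
  set Ψ : ℝ → ℝ≥0∞ := fun r => ∫⁻ y, ‖FB (AA k F r) y‖ₑ ^ q with hΨ
  have hΨm : Measurable Ψ := (hFBm.enorm.pow_const q).lintegral_prod_right'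
  have e1 : ∫⁻ z, ‖T (fun z : E (k + m) => F (P2 k m z)) z‖ₑ ^ q =
      sg k univ * ∫⁻ r in Ioi (0 : ℝ), ENNReal.ofReal (r ^ (k - 1)) * Ψ r := by
    rw [← (J_mp k m).lintegral_comp hTm, lintegral_prod]
    · rw [← Pool.Agent.H438R2.BR.T7.radial (by omega : 0 < k) Ψ hΨm]
      refine lintegral_congr fun x => ?_
      rw [hΨ]
      refine lintegral_congr fun y => ?_
      simp only
      rw [rep k hk hm F hFm hF x y]
    · exact (hTm.comp hJm).aemeasurable
  -- small `r`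
  have hsmall : ∀ r : ℝ, Ψ r ≤ ENNReal.ofReal K1 := by
    intro r
    refine (hP (AA k F r) (AA_meas k F hFm r)).trans ?_
    rw [hK1, ← ENNReal.ofReal_rpow_of_nonneg (by positivity) (by linarith),
      ENNReal.ofReal_mul hCP.le]
    gcongr
    calc ∫⁻ z in Metric.ball (0 : E m) 1, ‖AA k F r z‖ₑ ^ (2 : ℝ)
        ≤ ∫⁻ _ in Metric.ball (0 : E m) 1, ENNReal.ofReal ((σ * Real.pi) ^ 2) := by
          apply lintegral_mono
          intro z
          simp only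
          rw [enorm_sq]
          apply ENNReal.ofReal_le_ofReal
          exact pow_le_pow_left₀ (norm_nonneg _) (AA_le k hk F hF r z) 2
      _ = _ := by
          rw [setLIntegral_const, hvol, ENNReal.ofReal_mul (by positivity)]
  -- large `r`
  have hlarge : ∀ r : ℝ, 1 < r → ENNReal.ofReal (r ^ (k - 1)) * Ψ r ≤ ENNReal.ofReal (3 ^ q) *
      (ENNReal.ofReal (CD ^ q) * (ENNReal.ofReal (r ^ (-β)) * (∫⁻ y, ‖Gf k F (-1 * r) y‖ₑ ^ q) +
        ENNReal.ofReal (r ^ (-β)) * (∫⁻ y, ‖Gf k F (1 * r) y‖ₑ ^ q)) +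
        ENNReal.ofReal ((CP * CE) ^ (q / 2)) * ENNReal.ofReal (r ^ (-s0))) := by
    intro r hr
    have hr0 : 0 < r := by linarith
    have hGm : ∀ s : ℝ, Measurable fun y => ‖Gf k F s y‖ₑ ^ q := by
      intro s
      have hg := Gf_meas k F hFm
      exact (hg.comp measurable_prodMk_left).enorm.pow_const q
    have h3 : Ψ r ≤ ENNReal.ofReal (3 ^ q) * (ENNReal.ofReal ((CD * r ^ (-((k : ℝ) - 1) / 2)) ^ q) *
        ((∫⁻ y, ‖Gf k F (-1 * r) y‖ₑ ^ q) + ∫⁻ y, ‖Gf k F (1 * r) y‖ₑ ^ q) +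
        ∫⁻ y, ‖FB (EA k c F r) y‖ₑ ^ q) := by
      have h5 : ∀ y, ‖FB (AA k F r) y‖ₑ ^ q ≤ ENNReal.ofReal (3 ^ q) *
          (ENNReal.ofReal ((CD * r ^ (-((k : ℝ) - 1) / 2)) ^ q) * (‖Gf k F (-1 * r) y‖ₑ ^ q +
          ‖Gf k F (1 * r) y‖ₑ ^ q) + ‖FB (EA k c F r) y‖ₑ ^ q) := by
        intro y
        have h6 := hD F hFm hF r hr0 y
        rw [neg_one_mul, one_mul]
        refine (ENNReal.rpow_le_rpow h6 hq0.le).trans ?_
        rw [mul_add]
        refine (three _ _ _ q hq0.le).trans (le_of_eq ?_)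
        rw [ENNReal.mul_rpow_of_nonneg _ _ hq0.le, ENNReal.mul_rpow_of_nonneg _ _ hq0.le,
          ENNReal.ofReal_rpow_of_nonneg (by positivity) hq0.le,
          ← ENNReal.ofReal_rpow_of_nonneg (by norm_num : (0 : ℝ) ≤ 3) hq0.le]
        rw [show ENNReal.ofReal 3 = 3 by simp]
        ring
      calc Ψ r ≤ ∫⁻ y, ENNReal.ofReal (3 ^ q) *
          (ENNReal.ofReal ((CD * r ^ (-((k : ℝ) - 1) / 2)) ^ q) * (‖Gf k F (-1 * r) y‖ₑ ^ q +
          ‖Gf k F (1 * r) y‖ₑ ^ q) + ‖FB (EA k c F r) y‖ₑ ^ q) := lintegral_mono h5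
        _ = _ := by
          rw [lintegral_const_mul' _ _ ENNReal.ofReal_ne_top, lintegral_add_left,
            lintegral_const_mul' _ _ ENNReal.ofReal_ne_top, lintegral_add_left (hGm _)]
          exact ((hGm _).add (hGm _)).const_mul _
    have h4 : ∫⁻ y, ‖FB (EA k c F r) y‖ₑ ^ q ≤
        ENNReal.ofReal ((CP * CE) ^ (q / 2) * r ^ (-((k : ℝ) * (q / 2)))) := by
      refine (hP (EA k c F r) (EA_meas k c F hFm r)).trans ?_
      have h7 := hE F hF r hr0
      calc (ENNReal.ofReal CP * ∫⁻ z in Metric.ball (0 : E m) 1, ‖EA k c F r z‖ₑ ^ (2 : ℝ)) ^ (q / 2)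
          ≤ (ENNReal.ofReal CP * ENNReal.ofReal (CE * r ^ (-(k : ℝ)))) ^ (q / 2) := by
            gcongr
        _ = _ := by
            rw [← ENNReal.ofReal_mul hCP.le, ENNReal.ofReal_rpow_of_nonneg (by positivity)
              (by linarith), ← mul_assoc, Real.mul_rpow (by positivity) (by positivity),
              ← Real.rpow_mul hr0.le]
            congr 3
            ring
    have e2 : r ^ (k - 1) * (CD * r ^ (-((k : ℝ) - 1) / 2)) ^ q = CD ^ q * r ^ (-β) := by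
      rw [Real.mul_rpow hCD.le (by positivity), ← Real.rpow_mul hr0.le,
        ← Real.rpow_natCast r (k - 1)]
      have e3 : r ^ (((k - 1 : ℕ)) : ℝ) * r ^ (-((k : ℝ) - 1) / 2 * q) = r ^ (-β) := by
        rw [← Real.rpow_add hr0]
        congr 1
        rw [hβ]
        push_cast [Nat.cast_sub (by omega : 1 ≤ k)]
        ring
      rw [← e3]
      ring
    have e4 : r ^ (k - 1) * ((CP * CE) ^ (q / 2) * r ^ (-((k : ℝ) * (q / 2)))) =
        (CP * CE) ^ (q / 2) * r ^ (-s0) := by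
      rw [← Real.rpow_natCast r (k - 1)]
      have e3 : r ^ (((k - 1 : ℕ)) : ℝ) * r ^ (-((k : ℝ) * (q / 2))) = r ^ (-s0) := by
        rw [← Real.rpow_add hr0]
        congr 1
        rw [hs0]
        push_cast [Nat.cast_sub (by omega : 1 ≤ k)]
        ring
      rw [← e3]
      ring
    calc ENNReal.ofReal (r ^ (k - 1)) * Ψ r ≤ ENNReal.ofReal (r ^ (k - 1)) *
          (ENNReal.ofReal (3 ^ q) * (ENNReal.ofReal ((CD * r ^ (-((k : ℝ) - 1) / 2)) ^ q) *
        ((∫⁻ y, ‖Gf k F (-1 * r) y‖ₑ ^ q) + ∫⁻ y, ‖Gf k F (1 * r) y‖ₑ ^ q) +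
        ENNReal.ofReal ((CP * CE) ^ (q / 2) * r ^ (-((k : ℝ) * (q / 2)))))) := by
          gcongr
          refine h3.trans ?_
          gcongr
      _ = ENNReal.ofReal (3 ^ q) * (ENNReal.ofReal (r ^ (k - 1) *
          (CD * r ^ (-((k : ℝ) - 1) / 2)) ^ q) *
          ((∫⁻ y, ‖Gf k F (-1 * r) y‖ₑ ^ q) + ∫⁻ y, ‖Gf k F (1 * r) y‖ₑ ^ q) +
          ENNReal.ofReal (r ^ (k - 1) * ((CP * CE) ^ (q / 2) * r ^ (-((k : ℝ) * (q / 2)))))) := by
          rw [ENNReal.ofReal_mul (by positivity : (0 : ℝ) ≤ r ^ (k - 1)),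
            ENNReal.ofReal_mul (by positivity : (0 : ℝ) ≤ r ^ (k - 1))]
          ring
      _ = _ := by
          rw [e2, e4, ENNReal.ofReal_mul (by positivity), ENNReal.ofReal_mul (by positivity)]
          ring
  have hsplit : ∫⁻ r in Ioi (0 : ℝ), ENNReal.ofReal (r ^ (k - 1)) * Ψ r ≤
      ENNReal.ofReal K1 + ENNReal.ofReal K2 := by
    have h8 : Ioi (0 : ℝ) = Ioc 0 1 ∪ Ioi 1 := (Ioc_union_Ioi_eq_Ioi zero_le_one).symm
    rw [h8]
    refine (lintegral_union_le _ _ _).trans ?_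
    gcongr
    · calc ∫⁻ r in Ioc (0 : ℝ) 1, ENNReal.ofReal (r ^ (k - 1)) * Ψ r
          ≤ ∫⁻ _ in Ioc (0 : ℝ) 1, ENNReal.ofReal K1 := by
            refine setLIntegral_mono' measurableSet_Ioc fun r hr => ?_
            calc ENNReal.ofReal (r ^ (k - 1)) * Ψ r ≤ 1 * ENNReal.ofReal K1 := by
                  gcongr
                  · rw [ENNReal.ofReal_le_one]
                    exact pow_le_one₀ hr.1.le hr.2
                  · exact hsmall r
              _ = _ := one_mul _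
        _ = _ := by
            rw [setLIntegral_const, Real.volume_Ioc]
            simp
    · have hGi : ∀ s : ℝ, Measurable fun r : ℝ => ENNReal.ofReal (r ^ (-β)) *
          ∫⁻ y, ‖Gf k F (s * r) y‖ₑ ^ q := by
        intro s
        have hg := Gf_meas k F hFm
        have hp : Measurable fun p : ℝ × E m => ((s * p.1, p.2) : ℝ × E m) :=
          (measurable_fst.const_mul s).prodMk measurable_snd
        have h3 := Measurable.comp hg hp
        have h5 := (h3.enorm.pow_const q).lintegral_prod_right' (ν := (volume : Measure (E m)))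
        refine Measurable.mul (by fun_prop) ?_
        exact h5
      calc ∫⁻ r in Ioi (1 : ℝ), ENNReal.ofReal (r ^ (k - 1)) * Ψ r
          ≤ ∫⁻ r in Ioi (1 : ℝ), ENNReal.ofReal (3 ^ q) *
      (ENNReal.ofReal (CD ^ q) * (ENNReal.ofReal (r ^ (-β)) * (∫⁻ y, ‖Gf k F (-1 * r) y‖ₑ ^ q) +
        ENNReal.ofReal (r ^ (-β)) * (∫⁻ y, ‖Gf k F (1 * r) y‖ₑ ^ q)) +
        ENNReal.ofReal ((CP * CE) ^ (q / 2)) * ENNReal.ofReal (r ^ (-s0))) :=
            setLIntegral_mono' measurableSet_Ioi fun r hr => hlarge r hr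
        _ = ENNReal.ofReal (3 ^ q) * (ENNReal.ofReal (CD ^ q) *
            ((∫⁻ r in Ioi (1 : ℝ), ENNReal.ofReal (r ^ (-β)) * (∫⁻ y, ‖Gf k F (-1 * r) y‖ₑ ^ q)) +
            ∫⁻ r in Ioi (1 : ℝ), ENNReal.ofReal (r ^ (-β)) * (∫⁻ y, ‖Gf k F (1 * r) y‖ₑ ^ q)) +
            ENNReal.ofReal ((CP * CE) ^ (q / 2)) *
              ∫⁻ r in Ioi (1 : ℝ), ENNReal.ofReal (r ^ (-s0))) := by
            rw [lintegral_const_mul' _ _ ENNReal.ofReal_ne_top, lintegral_add_left,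
              lintegral_const_mul' _ _ ENNReal.ofReal_ne_top, lintegral_add_left (hGi _),
              lintegral_const_mul' _ _ ENNReal.ofReal_ne_top]
            exact ((hGi _).add (hGi _)).const_mul _
        _ ≤ ENNReal.ofReal (3 ^ q) * (ENNReal.ofReal (CD ^ q) *
            (ENNReal.ofReal CM + ENNReal.ofReal CM) +
            ENNReal.ofReal ((CP * CE) ^ (q / 2)) * ENNReal.ofReal (1 / (s0 - 1))) := by
            gcongr
            · exact hM F hFm hF hCF (-1) (Or.inr rfl)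
            · exact hM F hFm hF hCF 1 (Or.inl rfl)
            · exact (pow_int s0 hs01).le
        _ = _ := by
            have : 0 < s0 - 1 := by linarith
            rw [hK2, ← ENNReal.ofReal_add hCM.le hCM.le, ← ENNReal.ofReal_mul (by positivity),
              ← ENNReal.ofReal_mul (by positivity), ← ENNReal.ofReal_add (by positivity)
              (by positivity), ← ENNReal.ofReal_mul (by positivity)]
  rw [e1]
  calc sg k univ * ∫⁻ r in Ioi (0 : ℝ), ENNReal.ofReal (r ^ (k - 1)) * Ψ r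
      ≤ sg k univ * (ENNReal.ofReal K1 + ENNReal.ofReal K2) := by gcongr
    _ = _ := by
        have : IsFiniteMeasure (sg k) := Pool.Agent.H789R2.FR.sg_finite k
        rw [← ENNReal.ofReal_add hK10 hK20.le, ENNReal.ofReal_mul hSK0.le, hSK,
          ofReal_measureReal]

theorem hyp_of_restC (k : ℕ) (hk : 2 ≤ k) (hm : 1 ≤ m) (P : ℝ) (𝒟 : (E (1 + m) → ℂ) → Prop)
    (h : ∃ C : ℝ, 0 < C ∧ ∀ g : E (1 + m) → ℂ, Measurable g → (∀ x, ‖g x‖ ≤ 1) → 𝒟 g →
      ∫⁻ z, ‖T g z‖ₑ ^ P ≤ ENNReal.ofReal C) :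
    HypC k m P (fun F => 𝒟 (gu k F)) := by
  obtain ⟨C, hC, hT⟩ := h
  intro δ hδ
  refine ⟨C, hC, fun F hFm hF hCF s hs => ?_⟩
  have hgm := gu_meas k F hFm
  have hTm : Measurable fun z : E (1 + m) => ‖T (gu k F) z‖ₑ ^ P := (T_meas' _ hgm).enorm.pow_const P
  have hJm : Measurable fun p : E 1 × E m => J p.1 p.2 := (J_mp 1 m).measurable
  have hGm : Measurable fun r : ℝ => ∫⁻ y : E m, ‖Gf k F r y‖ₑ ^ P :=
    ((Gf_meas k F hFm).enorm.pow_const P).lintegral_prod_right'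
  have e1 : ∫⁻ z, ‖T (gu k F) z‖ₑ ^ P = ∫⁻ r : ℝ, ∫⁻ y : E m, ‖Gf k F r y‖ₑ ^ P := by
    rw [← (J_mp 1 m).lintegral_comp hTm, lintegral_prod]
    · have hm2 : Measurable fun x : E 1 => ∫⁻ y : E m, ‖T (gu k F) (J x y)‖ₑ ^ P :=
        (hTm.comp hJm).lintegral_prod_right'
      rw [← line_mp.lintegral_comp hm2]
      refine lintegral_congr fun r => lintegral_congr fun y => ?_
      rw [T_gu k hm F hFm r y]
    · exact (hTm.comp hJm).aemeasurable
  calc ∫⁻ r in Ioi (1 : ℝ), ENNReal.ofReal (r ^ (-δ)) * ∫⁻ y : E m, ‖Gf k F (s * r) y‖ₑ ^ P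
      ≤ ∫⁻ r in Ioi (1 : ℝ), ∫⁻ y : E m, ‖Gf k F (s * r) y‖ₑ ^ P := by
        refine setLIntegral_mono' measurableSet_Ioi fun r hr => ?_
        have hr' : (1 : ℝ) < r := hr
        calc ENNReal.ofReal (r ^ (-δ)) * ∫⁻ y : E m, ‖Gf k F (s * r) y‖ₑ ^ P
            ≤ 1 * ∫⁻ y : E m, ‖Gf k F (s * r) y‖ₑ ^ P := by
              gcongr
              rw [ENNReal.ofReal_le_one]
              exact Real.rpow_le_one_of_one_le_of_nonpos hr'.le (by linarith)
          _ = _ := one_mul _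
    _ ≤ ∫⁻ r : ℝ, ∫⁻ y : E m, ‖Gf k F (s * r) y‖ₑ ^ P := setLIntegral_le_lintegral _ _
    _ = ∫⁻ r : ℝ, ∫⁻ y : E m, ‖Gf k F r y‖ₑ ^ P := by
        rcases hs with rfl | rfl
        · simp
        · simp only [neg_one_mul]
          exact (Measure.measurePreserving_neg (volume : Measure ℝ)).lintegral_comp hGm
    _ ≤ _ := by
        rw [← e1]
        exact hT (gu k F) hgm (gu_le k hk F hF) hCF

/-- all exponents -/
theorem T_boundC (𝒞 : (E m → ℂ) → Prop) (k : ℕ) (hk : 2 ≤ k) (hm : 1 ≤ m) (P q : ℝ) (hP : 2 < P)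
    (hyp : HypC k m P 𝒞) (h : 1 < (q - 2) * (((k : ℝ) - 1) / 2 + 1 / (P - 2))) :
    ∃ C : ℝ, 0 < C ∧ ∀ (F : E m → ℂ), Measurable F → (∀ y, ‖F y‖ ≤ 1) → 𝒞 F →
    ∫⁻ z, ‖T (fun z : E (k + m) => F (P2 k m z)) z‖ₑ ^ q ≤ ENNReal.ofReal C := by
  have hk' : (2 : ℝ) ≤ k := by exact_mod_cast hk
  have hP2 : 0 < P - 2 := by linarith
  set D : ℝ := ((k : ℝ) - 1) / 2 + 1 / (P - 2) with hD
  have hD0 : 0 < D := by
    have : 0 < 1 / (P - 2) := by positivity
    have : 0 < ((k : ℝ) - 1) / 2 := by linarith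
    linarith
  have hq2 : 1 / D < q - 2 := by
    rw [div_lt_iff₀ hD0]; exact h
  have hDP : 1 / D < P - 2 := by
    rw [div_lt_iff₀ hD0, hD, mul_add, mul_one_div_cancel hP2.ne']
    have : 0 < (P - 2) * (((k : ℝ) - 1) / 2) := by
      apply mul_pos hP2
      linarith
    linarith
  obtain ⟨u, hu1, hu2⟩ := exists_between (lt_min hq2 hDP)
  have hu0 : 0 < u := lt_trans (by positivity) hu1
  have huq : u < q - 2 := lt_of_lt_of_le hu2 (min_le_left _ _)
  have huP : u < P - 2 := lt_of_lt_of_le hu2 (min_le_right _ _)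
  obtain ⟨C, hC, hmain⟩ := mainC (m := m) 𝒞 k hk hm P (2 + u) (by linarith) (by linarith) hyp (by
    rw [← hD, add_sub_cancel_left]
    rwa [div_lt_iff₀ hD0] at hu1)
  set S : ℝ := (sg (k + m)).real univ with hS
  have hS0 : 0 < S := Pool.Agent.H438R2.BR.T7.sg_pos (by omega)
  refine ⟨S ^ (q - (2 + u)) * C, by positivity, fun F hFm hF hCF => ?_⟩
  have hb : ∀ z, ‖T (fun z : E (k + m) => F (P2 k m z)) z‖ₑ ≤ ENNReal.ofReal S := by
    intro z
    rw [← ofReal_norm]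
    apply ENNReal.ofReal_le_ofReal
    have h1 := T_le (fun z : E (k + m) => F (P2 k m z)) 1 (fun w => hF _) z
    rwa [one_mul] at h1
  calc ∫⁻ z, ‖T (fun z : E (k + m) => F (P2 k m z)) z‖ₑ ^ q
      ≤ ∫⁻ z, ENNReal.ofReal S ^ (q - (2 + u)) *
        ‖T (fun z : E (k + m) => F (P2 k m z)) z‖ₑ ^ (2 + u) := by
        apply lintegral_mono
        intro z
        have h1 : ‖T (fun z : E (k + m) => F (P2 k m z)) z‖ₑ ^ q =
            ‖T (fun z : E (k + m) => F (P2 k m z)) z‖ₑ ^ (q - (2 + u)) *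
            ‖T (fun z : E (k + m) => F (P2 k m z)) z‖ₑ ^ (2 + u) := by
          rw [← ENNReal.rpow_add_of_nonneg _ _ (by linarith) (by linarith)]
          congr 1
          ring
        simp only
        rw [h1]
        exact mul_le_mul_left (ENNReal.rpow_le_rpow (hb z) (by linarith)) _
    _ = ENNReal.ofReal S ^ (q - (2 + u)) *
        ∫⁻ z, ‖T (fun z : E (k + m) => F (P2 k m z)) z‖ₑ ^ (2 + u) := by
        rw [lintegral_const_mul']
        exact ENNReal.rpow_ne_top_of_nonneg (by linarith) ENNReal.ofReal_ne_top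
    _ ≤ ENNReal.ofReal S ^ (q - (2 + u)) * ENNReal.ofReal C := by
        gcongr
        exact hmain F hFm hF hCF
    _ = _ := by
        rw [ENNReal.ofReal_rpow_of_nonneg hS0.le (by linarith), ← ENNReal.ofReal_mul (by positivity)]


/-- one step -/
theorem step (𝒟 : (E (1 + m) → ℂ) → Prop) (k : ℕ) (hk : 2 ≤ k) (hm : 1 ≤ m) (P q : ℝ) (hP : 2 < P)
    (hD : ∃ C : ℝ, 0 < C ∧ ∀ g : E (1 + m) → ℂ, Measurable g → (∀ x, ‖g x‖ ≤ 1) → 𝒟 g →
      ∫⁻ z, ‖T g z‖ₑ ^ P ≤ ENNReal.ofReal C)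
    (h : 1 < (q - 2) * (((k : ℝ) - 1) / 2 + 1 / (P - 2))) :
    ∃ C : ℝ, 0 < C ∧ ∀ (F : E m → ℂ), Measurable F → (∀ y, ‖F y‖ ≤ 1) → 𝒟 (gu k F) →
    ∫⁻ z, ‖T (fun z : E (k + m) => F (P2 k m z)) z‖ₑ ^ q ≤ ENNReal.ofReal C :=
  T_boundC (fun F => 𝒟 (gu k F)) k hk hm P q hP (hyp_of_restC k hk hm P 𝒟 hD) h

end Pool.Agent.Run7.h918.SR
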