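import Mathlib
import Pool.Agent.Run7.h918.SR.Step
set_option autoImplicit false

/-! Removing one block of variables. -/

namespace Pool.Agent.Run7.h918.SR

open MeasureTheory Set Complex
open scoped ENNReal RealInnerProductSpace
open Pool.Agent.TH335.RF hiding P1_J P2_J
open Pool.Agent.H789R2.FR (E sg T sg_finite sg_ae)
open Pool.Agent.H438R2.BR (J J_mp J_inner)
open Pool.Agent.H438R2.PD (P1 P2 P1_meas P2_meas T_meas' T_le T_comp P1_J P2_J)

variable {m : ℕ}

theorem J_eta {k m : ℕ} (z : E (k + m)) : J (P1 k m z) (P2 k m z) = z := by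
  ext i
  refine Fin.addCases (fun j => ?_) (fun j => ?_) i
  · simp [J, P1, P2, Fin.append_left]
  · simp [J, P1, P2, Fin.append_right]

theorem J_sub {k m : ℕ} (x x' : E k) (y y' : E m) : J x y - J x' y' = J (x - x') (y - y') := by
  ext i
  refine Fin.addCases (fun j => ?_) (fun j => ?_) i
  · simp [J, Fin.append_left]
  · simp [J, Fin.append_right]

theorem J_add {k m : ℕ} (x x' : E k) (y y' : E m) : J x y + J x' y' = J (x + x') (y + y') := by
  ext i
  refine Fin.addCases (fun j => ?_) (fun j => ?_) i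
  · simp [J, Fin.append_left]
  · simp [J, Fin.append_right]

theorem J_smul {k m : ℕ} (c : ℝ) (x : E k) (y : E m) : c • J x y = J (c • x) (c • y) := by
  ext i
  refine Fin.addCases (fun j => ?_) (fun j => ?_) i
  · simp [J, Fin.append_left]
  · simp [J, Fin.append_right]

theorem J_norm {k m : ℕ} (x : E k) (y : E m) : ‖J x y‖ ^ 2 = ‖x‖ ^ 2 + ‖y‖ ^ 2 := by
  rw [← real_inner_self_eq_norm_sq, J_inner, real_inner_self_eq_norm_sq,
    real_inner_self_eq_norm_sq]

theorem P1_sub {k m : ℕ} (x y : E (k + m)) : P1 k m (x - y) = P1 k m x - P1 k m y := by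
  ext i
  simp [P1]

theorem P2_sub {k m : ℕ} (x y : E (k + m)) : P2 k m (x - y) = P2 k m x - P2 k m y := by
  ext i
  simp [P2]

theorem P2_add {k m : ℕ} (x y : E (k + m)) : P2 k m (x + y) = P2 k m x + P2 k m y := by
  ext i
  simp [P2]

theorem P2_smul {k m : ℕ} (c : ℝ) (x : E (k + m)) : P2 k m (c • x) = c • P2 k m x := by
  ext i
  simp [P2]

/-- coordinates adapted to a block -/
theorem coords2 (k m : ℕ) (W : Submodule ℝ (E (k + m))) (hW : Module.finrank ℝ W = k) :
    ∃ (Λ : E (k + m) ≃ₗᵢ[ℝ] E (k + m)), (∀ x, P2 k m (Λ x) = 0 → x ∈ W) ∧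
      (∀ x ∈ Wᗮ, P1 k m (Λ x) = 0) := by
  have hVo : Module.finrank ℝ Wᗮ = m := by
    have h1 := W.finrank_add_finrank_orthogonal
    rw [hW, finrank_euclideanSpace_fin] at h1
    omega
  set c : OrthonormalBasis (Fin k) ℝ W := (stdOrthonormalBasis ℝ W).reindex (finCongr hW) with hc
  set b : OrthonormalBasis (Fin m) ℝ Wᗮ := (stdOrthonormalBasis ℝ Wᗮ).reindex (finCongr hVo)
    with hb
  let L : E (k + m) →ₗ[ℝ] E (k + m) :=
    { toFun := fun x => J (c.repr (W.orthogonalProjectionOnto x))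
        (b.repr (Wᗮ.orthogonalProjectionOnto x))
      map_add' := by
        intro x y
        simp only [map_add]
        rw [J_add]
      map_smul' := by
        intro a x
        simp only [map_smul, RingHom.id_apply]
        rw [J_smul] }
  have hnorm : ∀ x, ‖L x‖ = ‖x‖ := by
    intro x
    have h1 : ‖L x‖ ^ 2 = ‖x‖ ^ 2 := by
      change ‖J (c.repr (W.orthogonalProjectionOnto x))
        (b.repr (Wᗮ.orthogonalProjectionOnto x))‖ ^ 2 = ‖x‖ ^ 2
      rw [← real_inner_self_eq_norm_sq, J_inner, real_inner_self_eq_norm_sq,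
        real_inner_self_eq_norm_sq, LinearIsometryEquiv.norm_map, LinearIsometryEquiv.norm_map,
        Submodule.norm_sq_eq_add_norm_sq_projection x W]
    exact (sq_eq_sq₀ (norm_nonneg _) (norm_nonneg _)).1 h1
  let Li : E (k + m) →ₗᵢ[ℝ] E (k + m) := ⟨L, hnorm⟩
  refine ⟨Li.toLinearIsometryEquiv rfl, fun x hx => ?_, fun x hx => ?_⟩
  · have h2 : P2 k m (Li.toLinearIsometryEquiv rfl x) =
        b.repr (Wᗮ.orthogonalProjectionOnto x) := by
      change P2 k m (J (c.repr (W.orthogonalProjectionOnto x))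
        (b.repr (Wᗮ.orthogonalProjectionOnto x))) = _
      exact P2_J _ _
    rw [h2] at hx
    have h3 : Wᗮ.orthogonalProjectionOnto x = 0 := by
      have := congrArg b.repr.symm hx
      simpa using this
    rw [Submodule.orthogonalProjectionOnto_eq_zero_iff, Submodule.orthogonal_orthogonal] at h3
    exact h3
  · have h2 : P1 k m (Li.toLinearIsometryEquiv rfl x) =
        c.repr (W.orthogonalProjectionOnto x) := by
      change P1 k m (J (c.repr (W.orthogonalProjectionOnto x))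
        (b.repr (Wᗮ.orthogonalProjectionOnto x))) = _
      exact P1_J _ _
    rw [h2]
    have h3 : W.orthogonalProjectionOnto x = 0 := by
      rw [Submodule.orthogonalProjectionOnto_eq_zero_iff]
      exact hx
    rw [h3, map_zero]

/-- invariance of `g` in the directions of the subspaces -/
def Rad {n : ℕ} (V : List (Submodule ℝ (E n))) (g : E n → ℂ) : Prop :=
  ∀ W ∈ V, ∀ x y : E n, ‖x‖ = 1 → ‖y‖ = 1 → x - y ∈ W → g x = g y

/-- the class of densities -/
def Cl (n : ℕ) (κ : List ℕ) (g : E n → ℂ) : Prop :=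
  ∃ V : List (Submodule ℝ (E n)), V.Pairwise (fun A B => A ⟂ B) ∧
    V.map (fun W : Submodule ℝ (E n) => Module.finrank ℝ W) = κ ∧ Rad V g

theorem T_congr {n : ℕ} (g h : E n → ℂ) (H : ∀ x, ‖x‖ = 1 → g x = h x) (x : E n) :
    T g x = T h x := by
  unfold T
  refine integral_congr_ae ?_
  filter_upwards [sg_ae n] with w hw
  rw [H w hw]

/-- the map onto the last coordinates -/
noncomputable def ps (k m : ℕ) (Λ : E (k + m) ≃ₗᵢ[ℝ] E (k + m)) : E (k + m) →ₗ[ℝ] E (1 + m) where
  toFun w := J 0 (P2 k m (Λ w))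
  map_add' x y := by
    rw [J_add, map_add, P2_add, add_zero]
  map_smul' a x := by
    rw [RingHom.id_apply, J_smul, map_smul, P2_smul, smul_zero]

theorem ps_apply (k m : ℕ) (Λ : E (k + m) ≃ₗᵢ[ℝ] E (k + m)) (w : E (k + m)) :
    ps k m Λ w = J 0 (P2 k m (Λ w)) := rfl

theorem ps_inner (k m : ℕ) (Λ : E (k + m) ≃ₗᵢ[ℝ] E (k + m)) (w w' : E (k + m))
    (h : P1 k m (Λ w) = 0) : (⟪ps k m Λ w, ps k m Λ w'⟫ : ℝ) = ⟪w, w'⟫ := by
  have h1 : (⟪Λ w, Λ w'⟫ : ℝ) = ⟪P1 k m (Λ w), P1 k m (Λ w')⟫ + ⟪P2 k m (Λ w), P2 k m (Λ w')⟫ := by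
    rw [← J_inner, J_eta, J_eta]
  rw [ps_apply, ps_apply, J_inner, ← Λ.inner_map_map w w', h1, h]
  simp

theorem reduce (k m : ℕ) (hk : 1 ≤ k) (κ : List ℕ) (g : E (k + m) → ℂ) (hg : Measurable g)
    (hb : ∀ x, ‖g x‖ ≤ 1) (h : Cl (k + m) (k :: κ) g) :
    ∃ F : E m → ℂ, Measurable F ∧ (∀ y, ‖F y‖ ≤ 1) ∧ Cl (1 + m) κ (gu k F) ∧
      ∀ q : ℝ, ∫⁻ z, ‖T g z‖ₑ ^ q = ∫⁻ z, ‖T (fun z : E (k + m) => F (P2 k m z)) z‖ₑ ^ q := by
  obtain ⟨V, hVp, hVκ, hR⟩ := h
  obtain ⟨W, V', rfl⟩ : ∃ W V', V = W :: V' := by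
    cases V with
    | nil => simp at hVκ
    | cons W V' => exact ⟨W, V', rfl⟩
  rw [List.map_cons, List.cons.injEq] at hVκ
  obtain ⟨hW, hV'⟩ := hVκ
  rw [List.pairwise_cons] at hVp
  obtain ⟨hWo, hVp'⟩ := hVp
  obtain ⟨Λ, hΛ2, hΛ1⟩ := coords2 k m W hW
  set e1 : E k := EuclideanSpace.single (⟨0, hk⟩ : Fin k) (1 : ℝ) with he1
  have he1n : ‖e1‖ = 1 := by simp [he1]
  -- the point over `y`
  set p : E m → E (k + m) := fun y => J (wt y • e1) y with hp
  have hpm : Measurable p := by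
    have h1 : Measurable fun p : E k × E m => J p.1 p.2 := (J_mp k m).measurable
    have h2 : Measurable fun y : E m => ((wt y • e1, y) : E k × E m) :=
      (wt_meas.smul_const _).prodMk measurable_id
    exact h1.comp h2
  have hpn : ∀ y : E m, ‖y‖ ≤ 1 → ‖p y‖ = 1 := by
    intro y hy
    have h1 : ‖p y‖ ^ 2 = 1 := by
      rw [hp]
      simp only
      rw [J_norm, norm_smul, he1n, mul_one, Real.norm_of_nonneg (wt_nonneg y)]
      unfold wt
      rw [Real.sq_sqrt (by nlinarith [norm_nonneg y])]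
      ring
    have h2 := norm_nonneg (p y)
    nlinarith
  set F : E m → ℂ := fun y => g (Λ.symm (p y)) with hF
  have hP2n : ∀ {k' : ℕ} (z : E (k' + m)), ‖z‖ = 1 → ‖P1 k' m z‖ ^ 2 + ‖P2 k' m z‖ ^ 2 = 1 := by
    intro k' z hz
    rw [← J_norm, J_eta, hz]
    norm_num
  have hP2le : ∀ {k' : ℕ} (z : E (k' + m)), ‖z‖ = 1 → ‖P2 k' m z‖ ≤ 1 := by
    intro k' z hz
    have h1 := hP2n z hz
    nlinarith [norm_nonneg (P2 k' m z), sq_nonneg ‖P1 k' m z‖]
  refine ⟨F, hg.comp (Λ.symm.continuous.measurable.comp hpm), fun y => hb _, ?_, ?_⟩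
  · -- the class
    refine ⟨V'.map (fun U => U.map (ps k m Λ)), ?_, ?_, ?_⟩
    · rw [List.pairwise_map]
      refine hVp'.imp_of_mem ?_
      intro A B hA hB hAB
      rw [Submodule.isOrtho_iff_inner_eq]
      intro u hu v hv
      obtain ⟨a, ha, rfl⟩ := Submodule.mem_map.1 hu
      obtain ⟨b, hb', rfl⟩ := Submodule.mem_map.1 hv
      have ha1 : a ∈ Wᗮ := (Submodule.isOrtho_iff_le.1 (hWo A hA).symm) ha
      rw [ps_inner k m Λ a b (hΛ1 a ha1)]
      exact Submodule.isOrtho_iff_inner_eq.1 hAB a ha b hb'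
    · rw [List.map_map, ← hV']
      apply List.map_congr_left
      intro U hU
      have hinj : Function.Injective ((ps k m Λ).domRestrict U) := by
        rw [injective_iff_map_eq_zero]
        rintro ⟨a, ha⟩ h0
        have ha1 : a ∈ Wᗮ := (Submodule.isOrtho_iff_le.1 (hWo U hU).symm) ha
        have h1 : ps k m Λ a = 0 := h0
        have h2 := ps_inner k m Λ a a (hΛ1 a ha1)
        rw [h1, inner_zero_left] at h2
        have h3 : a = 0 := inner_self_eq_zero.1 h2.symm
        exact Subtype.ext h3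
      have h1 := LinearMap.finrank_range_of_inj hinj
      rw [LinearMap.range_domRestrict] at h1
      exact h1
    · intro U hU x y hx hy hxy
      obtain ⟨U', hU', rfl⟩ := List.mem_map.1 hU
      obtain ⟨w, hw, hwe⟩ := Submodule.mem_map.1 hxy
      rw [ps_apply] at hwe
      have hw1 : w ∈ Wᗮ := (Submodule.isOrtho_iff_le.1 (hWo U' hU').symm) hw
      have hP1 : P1 1 m x = P1 1 m y := by
        have h1 := congrArg (P1 1 m) hwe
        rw [P1_J, P1_sub] at h1
        exact (sub_eq_zero.1 h1.symm)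
      have hP2 : P2 1 m x - P2 1 m y = P2 k m (Λ w) := by
        have h1 := congrArg (P2 1 m) hwe
        rw [P2_J, P2_sub] at h1
        exact h1.symm
      have hnn : ‖P2 1 m x‖ = ‖P2 1 m y‖ := by
        have h1 := hP2n x hx
        have h2 := hP2n y hy
        rw [hP1] at h1
        have h3 : ‖P2 1 m x‖ ^ 2 = ‖P2 1 m y‖ ^ 2 := by linarith
        exact (sq_eq_sq₀ (norm_nonneg _) (norm_nonneg _)).1 h3
      have hwt : wt (P2 1 m x) = wt (P2 1 m y) := by
        unfold wt
        rw [hnn]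
      have hFeq : F (P2 1 m x) = F (P2 1 m y) := by
        rw [hF]
        refine hR U' (List.mem_cons_of_mem _ hU') _ _ ?_ ?_ ?_
        · rw [LinearIsometryEquiv.norm_map]
          exact hpn _ (hP2le x hx)
        · rw [LinearIsometryEquiv.norm_map]
          exact hpn _ (hP2le y hy)
        · rw [← map_sub]
          have h1 : p (P2 1 m x) - p (P2 1 m y) = Λ w := by
            rw [hp]
            simp only
            rw [J_sub, hwt, sub_self, hP2]
            have h2 := J_eta (Λ w)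
            rw [hΛ1 w hw1] at h2
            exact h2
          rw [h1, LinearIsometryEquiv.symm_apply_apply]
          exact hw
      unfold gu
      by_cases hx0 : x ∈ {z : E (1 + m) | 0 < (P1 1 m z) 0 ∧ (P1 1 m z) 0 ≤ 1}
      · have hy0 : y ∈ {z : E (1 + m) | 0 < (P1 1 m z) 0 ∧ (P1 1 m z) 0 ≤ 1} := by
          rw [mem_ofPred_eq] at hx0 ⊢
          rw [← hP1]
          exact hx0
        rw [indicator_of_mem hx0, indicator_of_mem hy0, hP1, hFeq]
      · have hy0 : y ∉ {z : E (1 + m) | 0 < (P1 1 m z) 0 ∧ (P1 1 m z) 0 ≤ 1} := by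
          rw [mem_ofPred_eq] at hx0 ⊢
          rw [← hP1]
          exact hx0
        rw [indicator_of_notMem hx0, indicator_of_notMem hy0]
  · intro q
    have h1 : ∀ z : E (k + m), ‖z‖ = 1 → g (Λ.symm z) = F (P2 k m z) := by
      intro z hz
      rw [hF]
      refine hR W List.mem_cons_self _ _ ?_ ?_ ?_
      · rw [LinearIsometryEquiv.norm_map]
        exact hz
      · rw [LinearIsometryEquiv.norm_map]
        exact hpn _ (hP2le z hz)
      · rw [← map_sub]
        apply hΛ2
        rw [LinearIsometryEquiv.apply_symm_apply, P2_sub, hp]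
        simp only
        rw [P2_J, sub_self]
    have h2 : ∀ z, T (fun z : E (k + m) => F (P2 k m z)) z = T g (Λ.symm z) := by
      intro z
      rw [← T_comp Λ.symm g z]
      exact (T_congr _ _ (fun x hx => h1 x hx) z).symm
    simp only [h2]
    have hm : Measurable fun z => ‖T g z‖ₑ ^ q := (T_meas' g hg).enorm.pow_const q
    exact (Λ.symm.measurePreserving.lintegral_comp hm).symm

end Pool.Agent.Run7.h918.SR
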