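import Mathlib
import Pool.Agent.Run7.h918.SR.Geom
import Pool.Agent.TH554.J1595
set_option autoImplicit false

/-! Induction on the number of blocks. -/

namespace Pool.Agent.Run7.h918.SR

open MeasureTheory Set Complex
open scoped ENNReal RealInnerProductSpace
open Pool.Agent.TH335.RF hiding P1_J P2_J
open Pool.Agent.H789R2.FR (E sg T sg_finite sg_ae)
open Pool.Agent.H438R2.BR (J J_mp J_inner)
open Pool.Agent.H438R2.PD (P1 P2 P1_meas P2_meas T_meas' T_le T_comp P1_J P2_J)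

/-- the estimate for a class of densities -/
def Est (n : ℕ) (q : ℝ) (𝒟 : (E n → ℂ) → Prop) : Prop :=
  ∃ C : ℝ, 0 < C ∧ ∀ g : E n → ℂ, Measurable g → (∀ x, ‖g x‖ ≤ 1) → 𝒟 g →
    ∫⁻ z, ‖T g z‖ₑ ^ q ≤ ENNReal.ofReal C

/-- larger exponents -/
theorem RT_mono (n : ℕ) (hn : 1 ≤ n) (P q : ℝ) (hP : 0 < P) (hq : P < q) (h : RT n P) :
    RT n q := by
  obtain ⟨C, hC, h⟩ := h
  set S : ℝ := (sg n).real univ with hS
  have hS0 : 0 < S := Pool.Agent.H438R2.BR.T7.sg_pos (by omega)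
  refine ⟨S ^ (q - P) * C, by positivity, fun g hg hb1 => ?_⟩
  have hb : ∀ z, ‖T g z‖ₑ ≤ ENNReal.ofReal S := by
    intro z
    rw [← ofReal_norm]
    apply ENNReal.ofReal_le_ofReal
    have h1 := T_le g 1 (fun w => hb1 _) z
    rwa [one_mul] at h1
  calc ∫⁻ z, ‖T g z‖ₑ ^ q
      ≤ ∫⁻ z, ENNReal.ofReal S ^ (q - P) * ‖T g z‖ₑ ^ P := by
        apply lintegral_mono
        intro z
        have h1 : ‖T g z‖ₑ ^ q = ‖T g z‖ₑ ^ (q - P) * ‖T g z‖ₑ ^ P := by
          rw [← ENNReal.rpow_add_of_nonneg _ _ (by linarith) (by linarith)]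
          congr 1
          ring
        simp only
        rw [h1]
        exact mul_le_mul_left (ENNReal.rpow_le_rpow (hb z) (by linarith)) _
    _ = ENNReal.ofReal S ^ (q - P) * ∫⁻ z, ‖T g z‖ₑ ^ P := by
        rw [lintegral_const_mul']
        exact ENNReal.rpow_ne_top_of_nonneg (by linarith) ENNReal.ofReal_ne_top
    _ ≤ ENNReal.ofReal S ^ (q - P) * ENNReal.ofReal C := by
        gcongr
        exact h g hg hb1
    _ = _ := by
        rw [ENNReal.ofReal_rpow_of_nonneg hS0.le (by linarith), ← ENNReal.ofReal_mul (by positivity)]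

theorem exists_P (k : ℕ) (hk : 2 ≤ k) (B q : ℝ) (hB : 0 < B)
    (h : 1 < (q - 2) * (((k : ℝ) - 1) / 2 + B)) : ∃ P : ℝ, 2 < P ∧ 1 / (P - 2) < B ∧
    1 < (q - 2) * (((k : ℝ) - 1) / 2 + 1 / (P - 2)) := by
  have hk' : (2 : ℝ) ≤ k := by exact_mod_cast hk
  have hq : 0 < q - 2 := by
    by_contra hc
    have : (q - 2) * (((k : ℝ) - 1) / 2 + B) ≤ 0 :=
      mul_nonpos_of_nonpos_of_nonneg (not_lt.1 hc) (by linarith)
    linarith
  have h1 : 1 / (q - 2) - ((k : ℝ) - 1) / 2 < B := by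
    have h2 : 1 / (q - 2) < ((k : ℝ) - 1) / 2 + B := by
      rw [div_lt_iff₀ hq, mul_comm]
      exact h
    linarith
  obtain ⟨v, hv1, hv2⟩ := exists_between (max_lt h1 hB)
  have hv0 : 0 < v := lt_of_le_of_lt (le_max_right _ _) hv1
  have hv3 : 1 / (q - 2) - ((k : ℝ) - 1) / 2 < v := lt_of_le_of_lt (le_max_left _ _) hv1
  refine ⟨2 + 1 / v, by linarith [one_div_pos.2 hv0], ?_, ?_⟩
  · rw [add_sub_cancel_left, one_div_one_div]
    exact hv2
  · rw [add_sub_cancel_left, one_div_one_div]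
    have h4 : 1 / (q - 2) < ((k : ℝ) - 1) / 2 + v := by linarith
    rw [div_lt_iff₀ hq] at h4
    rw [mul_comm]
    exact h4

theorem ind (d : ℕ) (hd : 2 ≤ d) (P : ℝ) (hP : 2 < P) (hRT : RT d P) (κ : List ℕ)
    (hκ : ∀ k ∈ κ, 2 ≤ k) : ∀ (n : ℕ), d + (κ.map (fun k => k - 1)).sum = n → ∀ q : ℝ,
    1 < (q - 2) * (((n : ℝ) - d) / 2 + 1 / (P - 2)) → Est n q (Cl n κ) := by
  have hP2 : 0 < P - 2 := by linarith
  have hP2' : 0 < 1 / (P - 2) := by positivity
  induction κ with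
  | nil =>
    intro n hn q hq
    simp only [List.map_nil, List.sum_nil, add_zero] at hn
    subst hn
    have h1 : P < q := by
      rw [sub_self, zero_div, zero_add, mul_one_div, lt_div_iff₀ hP2] at hq
      linarith
    obtain ⟨C, hC, h⟩ := RT_mono d (by omega) P q (by linarith) h1 hRT
    exact ⟨C, hC, fun g hg hb _ => h g hg hb⟩
  | cons k κ ih =>
    intro n hn q hq
    have hk : 2 ≤ k := hκ k List.mem_cons_self
    have ih' := ih (fun k' hk' => hκ k' (List.mem_cons_of_mem _ hk'))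
    rw [List.map_cons, List.sum_cons] at hn
    obtain ⟨m, rfl⟩ : ∃ m, n = k + m := ⟨n - k, by omega⟩
    have hm : 1 ≤ m := by omega
    have hn' : d + (κ.map (fun k => k - 1)).sum = 1 + m := by omega
    have hdm : d ≤ 1 + m := by omega
    have hdm' : (d : ℝ) ≤ ((1 + m : ℕ) : ℝ) := by exact_mod_cast hdm
    set B : ℝ := (((1 + m : ℕ) : ℝ) - d) / 2 + 1 / (P - 2) with hB
    have hB0 : 0 < B := by
      have : 0 ≤ (((1 + m : ℕ) : ℝ) - d) / 2 := by linarith
      linarith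
    have e1 : (((k + m : ℕ) : ℝ) - d) / 2 + 1 / (P - 2) = ((k : ℝ) - 1) / 2 + B := by
      rw [hB]
      push_cast
      ring
    rw [e1] at hq
    obtain ⟨P', hP', hPB, hq'⟩ := exists_P k hk B q hB0 hq
    have hPB' : 1 < (P' - 2) * B := by
      have h1 : 0 < P' - 2 := by linarith
      rw [div_lt_iff₀ h1] at hPB
      linarith
    have hD := ih' (1 + m) hn' P' (by rw [hB] at hPB'; exact hPB')
    obtain ⟨C, hC, h⟩ := step (Cl (1 + m) κ) k hk hm P' q hP' hD hq'
    refine ⟨C, hC, fun g hg hb hcl => ?_⟩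
    obtain ⟨F, hFm, hF1, hFc, hFT⟩ := reduce k m (by omega) κ g hg hb hcl
    rw [hFT q]
    exact h F hFm hF1 hFc

/-- the class of block radial densities with `n - ∑ (dim V_i - 1) = d` -/
def Blk (n d : ℕ) (g : E n → ℂ) : Prop :=
  ∃ V : List (Submodule ℝ (E n)), V.Pairwise (fun A B => A ⟂ B) ∧
    (∀ W ∈ V, 2 ≤ Module.finrank ℝ W) ∧
    d + (V.map (fun W : Submodule ℝ (E n) => Module.finrank ℝ W - 1)).sum = n ∧ Rad V g

theorem est_blk (n d : ℕ) (hd : 2 ≤ d) (hdn : d ≤ n) (P : ℝ) (hP : 2 < P) (hRT : RT d P) (q : ℝ)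
    (hq : 1 < (q - 2) * (((n : ℝ) - d) / 2 + 1 / (P - 2))) : Est n q (Blk n d) := by
  have key : ∀ c : Composition (n - d), Est n q (Cl n (c.blocks.map (fun i => i + 1))) := by
    intro c
    refine ind d hd P hP hRT _ ?_ n ?_ q hq
    · intro k hk
      obtain ⟨i, hi, rfl⟩ := List.mem_map.1 hk
      have := c.blocks_pos hi
      omega
    · rw [List.map_map]
      have e : ((fun k => k - 1) ∘ fun i => i + 1) = (id : ℕ → ℕ) := by
        funext i
        simp
      rw [e, List.map_id, c.blocks_sum]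
      omega
  choose C hC h using key
  refine ⟨∑ c, C c + 1, by
    have : 0 ≤ ∑ c, C c := Finset.sum_nonneg fun c _ => (hC c).le
    linarith, fun g hg hb hcl => ?_⟩
  obtain ⟨V, hVp, hV2, hVs, hR⟩ := hcl
  have hpos : ∀ {i : ℕ}, i ∈ V.map (fun W : Submodule ℝ (E n) => Module.finrank ℝ W - 1) →
      0 < i := by
    intro i hi
    obtain ⟨W, hW, rfl⟩ := List.mem_map.1 hi
    have := hV2 W hW
    omega
  set c : Composition (n - d) :=
    ⟨V.map (fun W : Submodule ℝ (E n) => Module.finrank ℝ W - 1), hpos, by omega⟩ with hc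
  have hcl' : Cl n (c.blocks.map (fun i => i + 1)) g := by
    refine ⟨V, hVp, ?_, hR⟩
    rw [hc, List.map_map]
    apply List.map_congr_left
    intro W hW
    have := hV2 W hW
    simp only [Function.comp_apply]
    omega
  refine (h c g hg hb hcl').trans (ENNReal.ofReal_le_ofReal ?_)
  have h1 : C c ≤ ∑ c, C c :=
    Finset.single_le_sum (f := C) (fun c _ => (hC c).le) (Finset.mem_univ c)
  linarith

/-- the circle -/
theorem rt_two (P : ℝ) (hP : 4 < P) : RT 2 P := by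
  obtain ⟨C, h⟩ := Pool.Agent.TH554.J1595.circle P hP
  have hfin : IsFiniteMeasure (sg 2) := sg_finite 2
  set S : ℝ := (sg 2).real univ with hS
  have hS0 : 0 < S := Pool.Agent.H438R2.BR.T7.sg_pos (by omega)
  refine ⟨((C : ℝ) + 1) * S ^ (P / 4), by positivity, fun g hg hb => ?_⟩
  have h1 : ∫⁻ z, ‖g z‖ₑ ^ 4 ∂(sg 2) ≤ ENNReal.ofReal S := by
    calc ∫⁻ z, ‖g z‖ₑ ^ 4 ∂(sg 2) ≤ ∫⁻ _z, 1 ∂(sg 2) := by
          apply lintegral_mono
          intro z
          simp only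
          apply pow_le_one₀ zero_le
          rw [← ofReal_norm]
          exact ENNReal.ofReal_le_one.2 (hb z)
      _ = _ := by
          rw [lintegral_one, hS, ofReal_measureReal]
  calc ∫⁻ z, ‖T g z‖ₑ ^ P ≤ C * (∫⁻ z, ‖g z‖ₑ ^ 4 ∂(sg 2)) ^ (P / 4) := h g hg ⟨1, hb⟩
    _ ≤ ENNReal.ofReal ((C : ℝ) + 1) * ENNReal.ofReal S ^ (P / 4) := by
        have h2 : (C : ℝ≥0∞) ≤ ENNReal.ofReal ((C : ℝ) + 1) := by
          rw [← ENNReal.ofReal_coe_nnreal]
          exact ENNReal.ofReal_le_ofReal (by linarith)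
        gcongr
    _ = _ := by
        rw [ENNReal.ofReal_rpow_of_nonneg hS0.le (by linarith),
          ← ENNReal.ofReal_mul (by positivity)]

end Pool.Agent.Run7.h918.SR
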